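import Pool.Agent.K4H85.NZD1

set_option autoImplicit false

open Finset Pointwise

namespace Pool.Agent.K4H23.NZ

theorem V_eq_pow {e : ℕ} (he : 1 ≤ e) {M n : ℝ} {k : ℕ} (hn : 0 ≤ n) :
    V e M k n = (((k : ℝ) + 1) ^ (1 / (e : ℝ)) *
      (n ^ (1 / (e : ℝ)) / (k : ℝ) ^ (1 / (e : ℝ)) + M)) ^ e := by
  have he0 : e ≠ 0 := by omega
  have hk0 : (0 : ℝ) ≤ k := Nat.cast_nonneg k
  unfold V g
  rw [mul_pow, Real.div_rpow hn hk0]
  congr 1
  rw [one_div, Real.rpow_inv_natCast_pow (by linarith) he0]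

theorem t_eq {e : ℕ} (he : 1 ≤ e) {M : ℝ} (hM : 0 < M) (m : ℕ) :
    (M ^ e * (m : ℝ) ^ (e + 1)) ^ (1 / (e : ℝ)) = M * (m * (m : ℝ) ^ (1 / (e : ℝ))) := by
  have he0 : e ≠ 0 := by omega
  have hm0 : (0 : ℝ) ≤ m := Nat.cast_nonneg m
  rw [Real.mul_rpow (by positivity) (by positivity), pow_succ,
    Real.mul_rpow (by positivity) hm0, one_div, Real.pow_rpow_inv_natCast hM.le he0,
    Real.pow_rpow_inv_natCast hm0 he0]

/-- D2 -/
theorem d2a {e : ℕ} (he : 1 ≤ e) {M n : ℝ} (hM : 0 < M) {k m : ℕ} (hk : 1 ≤ k) (hkm : k < m)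
    (hn : M ^ e * (m : ℝ) ^ (e + 1) ≤ n) : V e M m n < V e M k n := by
  have he0 : e ≠ 0 := by omega
  have heR : (0 : ℝ) < e := by exact_mod_cast (by omega : 0 < e)
  have hkR : (0 : ℝ) < k := by exact_mod_cast (by omega : 0 < k)
  have hmR : (0 : ℝ) < m := by exact_mod_cast (by omega : 0 < m)
  have hkmR : (k : ℝ) < m := by exact_mod_cast hkm
  have hn0 : 0 ≤ n := le_trans (by positivity) hn
  rw [V_eq_pow he hn0, V_eq_pow he hn0]
  have ha : 0 < 1 / (e : ℝ) := by positivity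
  have ht := Real.rpow_le_rpow (by positivity) hn ha.le
  rw [t_eq he hM m] at ht
  have hd := d1 hmR hkR hkmR.ne' ha
  have hmono : ((m : ℝ) + 1) ^ (1 / (e : ℝ)) / (m : ℝ) ^ (1 / (e : ℝ)) ≤
      ((k : ℝ) + 1) ^ (1 / (e : ℝ)) / (k : ℝ) ^ (1 / (e : ℝ)) := by
    rw [← Real.div_rpow (by linarith) hmR.le, ← Real.div_rpow (by linarith) hkR.le]
    apply Real.rpow_le_rpow (by positivity) _ ha.le
    rw [div_le_div_iff₀ hmR hkR]
    nlinarith
  set a : ℝ := 1 / (e : ℝ) with hadef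
  set t : ℝ := n ^ a with htdef
  have e1 : (1 + (m : ℝ)) ^ (1 + a) = (m + 1) * ((m : ℝ) + 1) ^ a := by
    rw [add_comm 1 (m : ℝ), Real.rpow_add (by linarith), Real.rpow_one]
  have e2 : (m : ℝ) ^ (1 + a) = m * (m : ℝ) ^ a := by
    rw [Real.rpow_add hmR, Real.rpow_one]
  rw [e1, e2, add_comm 1 (k : ℝ)] at hd
  have hma : 0 < (m : ℝ) ^ a := Real.rpow_pos_of_pos hmR _
  have hka : 0 < (k : ℝ) ^ a := Real.rpow_pos_of_pos hkR _
  have hm1 : 0 < ((m : ℝ) + 1) ^ a := Real.rpow_pos_of_pos (by linarith) _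
  have hk1 : 0 < ((k : ℝ) + 1) ^ a := Real.rpow_pos_of_pos (by linarith) _
  have ht0 : 0 ≤ t := Real.rpow_nonneg hn0 _
  apply pow_lt_pow_left₀ _ (by positivity) he0
  set ma := (m : ℝ) ^ a
  set ka := (k : ℝ) ^ a
  set m1 := ((m : ℝ) + 1) ^ a
  set k1 := ((k : ℝ) + 1) ^ a
  have h1 : 0 ≤ (t - M * (m * ma)) * (k1 / ka - m1 / ma) :=
    mul_nonneg (by linarith) (by linarith)
  have h2 : 0 < M * (k1 * (1 + m * ma / ka) - (m + 1) * m1) := mul_pos hM (by linarith)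
  have h3 : k1 * (t / ka + M) - m1 * (t / ma + M) =
      (t - M * (m * ma)) * (k1 / ka - m1 / ma) +
      M * (k1 * (1 + m * ma / ka) - (m + 1) * m1) := by
    field_simp
    ring
  linarith

theorem d2b {e : ℕ} (he : 1 ≤ e) {M n : ℝ} (hM : 0 < M) {k m : ℕ} (hk : 1 ≤ k) (hkm : k < m)
    (hn0 : 0 < n) (hn : n ≤ M ^ e * (k : ℝ) ^ (e + 1)) : V e M k n < V e M m n := by
  have he0 : e ≠ 0 := by omega
  have heR : (0 : ℝ) < e := by exact_mod_cast (by omega : 0 < e)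
  have hkR : (0 : ℝ) < k := by exact_mod_cast (by omega : 0 < k)
  have hmR : (0 : ℝ) < m := by exact_mod_cast (by omega : 0 < m)
  have hkmR : (k : ℝ) < m := by exact_mod_cast hkm
  rw [V_eq_pow he hn0.le, V_eq_pow he hn0.le]
  have ha : 0 < 1 / (e : ℝ) := by positivity
  have ht := Real.rpow_le_rpow hn0.le hn ha.le
  rw [t_eq he hM k] at ht
  have hd := d1 hkR hmR hkmR.ne ha
  have hmono : ((m : ℝ) + 1) ^ (1 / (e : ℝ)) / (m : ℝ) ^ (1 / (e : ℝ)) ≤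
      ((k : ℝ) + 1) ^ (1 / (e : ℝ)) / (k : ℝ) ^ (1 / (e : ℝ)) := by
    rw [← Real.div_rpow (by linarith) hmR.le, ← Real.div_rpow (by linarith) hkR.le]
    apply Real.rpow_le_rpow (by positivity) _ ha.le
    rw [div_le_div_iff₀ hmR hkR]
    nlinarith
  set a : ℝ := 1 / (e : ℝ) with hadef
  set t : ℝ := n ^ a with htdef
  have e1 : (1 + (k : ℝ)) ^ (1 + a) = (k + 1) * ((k : ℝ) + 1) ^ a := by
    rw [add_comm 1 (k : ℝ), Real.rpow_add (by linarith), Real.rpow_one]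
  have e2 : (k : ℝ) ^ (1 + a) = k * (k : ℝ) ^ a := by
    rw [Real.rpow_add hkR, Real.rpow_one]
  rw [e1, e2, add_comm 1 (m : ℝ)] at hd
  have hma : 0 < (m : ℝ) ^ a := Real.rpow_pos_of_pos hmR _
  have hka : 0 < (k : ℝ) ^ a := Real.rpow_pos_of_pos hkR _
  have hm1 : 0 < ((m : ℝ) + 1) ^ a := Real.rpow_pos_of_pos (by linarith) _
  have hk1 : 0 < ((k : ℝ) + 1) ^ a := Real.rpow_pos_of_pos (by linarith) _
  have ht0 : 0 ≤ t := Real.rpow_nonneg hn0.le _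
  apply pow_lt_pow_left₀ _ (by positivity) he0
  set ma := (m : ℝ) ^ a
  set ka := (k : ℝ) ^ a
  set m1 := ((m : ℝ) + 1) ^ a
  set k1 := ((k : ℝ) + 1) ^ a
  have h1 : 0 ≤ (M * (k * ka) - t) * (k1 / ka - m1 / ma) :=
    mul_nonneg (by linarith) (by linarith)
  have h2 : 0 < M * (m1 * (1 + k * ka / ma) - (k + 1) * k1) := mul_pos hM (by linarith)
  have h3 : m1 * (t / ma + M) - k1 * (t / ka + M) =
      (M * (k * ka) - t) * (k1 / ka - m1 / ma) +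
      M * (m1 * (1 + k * ka / ma) - (k + 1) * k1) := by
    field_simp
    ring
  linarith

end Pool.Agent.K4H23.NZ
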