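import Pool.Agent.K4H25.FH.Spec

/-! The analysis of the autocovariance of fractional Gaussian noise, `1/2 < H < 1`
(piece PHI for MP_0e0306_pr). -/

set_option autoImplicit false

namespace Pool.Agent.K4H25.FH

open Finset Set

/-- mean value theorem for third differences -/
theorem third_diff (q q1 q2 q3 : ℝ → ℝ) (a : ℝ) (hc : ContinuousOn q (Set.Icc a (a + 3)))
    (h1 : ∀ y ∈ Set.Ioo a (a + 3), HasDerivAt q (q1 y) y)
    (h2 : ∀ y ∈ Set.Ioo a (a + 3), HasDerivAt q1 (q2 y) y)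
    (h3 : ∀ y ∈ Set.Ioo a (a + 3), HasDerivAt q2 (q3 y) y) :
    ∃ e ∈ Set.Ioo a (a + 3), q (a + 3) - 3 * q (a + 2) + 3 * q (a + 1) - q a = q3 e := by
  -- first step
  obtain ⟨c, hc1, hc2⟩ := exists_hasDerivAt_eq_slope
    (fun y => q (y + 2) - 2 * q (y + 1) + q y)
    (fun y => q1 (y + 2) - 2 * q1 (y + 1) + q1 y) (show a < a + 1 by linarith)
    (by
      refine ContinuousOn.add (ContinuousOn.sub ?_ (ContinuousOn.mul continuousOn_const ?_)) ?_
      · refine hc.comp (by fun_prop) ?_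
        intro y hy
        exact ⟨by linarith [hy.1], by linarith [hy.2]⟩
      · refine hc.comp (by fun_prop) ?_
        intro y hy
        exact ⟨by linarith [hy.1], by linarith [hy.2]⟩
      · refine hc.mono ?_
        intro y hy
        exact ⟨by linarith [hy.1], by linarith [hy.2]⟩)
    (by
      intro y hy
      refine HasDerivAt.add (HasDerivAt.sub ?_ (HasDerivAt.const_mul 2 ?_)) ?_
      · exact (h1 (y + 2) ⟨by linarith [hy.1], by linarith [hy.2]⟩).comp_add_const y 2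
      · exact (h1 (y + 1) ⟨by linarith [hy.1], by linarith [hy.2]⟩).comp_add_const y 1
      · exact h1 y ⟨by linarith [hy.1], by linarith [hy.2]⟩)
  -- second step
  have hd1 : ∀ y ∈ Set.Icc c (c + 1), HasDerivAt (fun y => q1 (y + 1) - q1 y)
      (q2 (y + 1) - q2 y) y := by
    intro y hy
    refine HasDerivAt.sub ?_ ?_
    · exact (h2 (y + 1) ⟨by linarith [hy.1, hc1.1], by linarith [hy.2, hc1.2]⟩).comp_add_const y 1
    · exact h2 y ⟨by linarith [hy.1, hc1.1], by linarith [hy.2, hc1.2]⟩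
  obtain ⟨d, hd1', hd2⟩ := exists_hasDerivAt_eq_slope
    (fun y => q1 (y + 1) - q1 y) (fun y => q2 (y + 1) - q2 y) (show c < c + 1 by linarith)
    (fun y hy => (hd1 y hy).continuousAt.continuousWithinAt)
    (fun y hy => hd1 y ⟨hy.1.le, hy.2.le⟩)
  -- third step
  have he1 : ∀ y ∈ Set.Icc d (d + 1), HasDerivAt q2 (q3 y) y := by
    intro y hy
    exact h3 y ⟨by linarith [hy.1, hd1'.1, hc1.1], by linarith [hy.2, hd1'.2, hc1.2]⟩
  obtain ⟨e, he, he2⟩ := exists_hasDerivAt_eq_slope q2 q3 (show d < d + 1 by linarith)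
    (fun y hy => (he1 y hy).continuousAt.continuousWithinAt)
    (fun y hy => he1 y ⟨hy.1.le, hy.2.le⟩)
  refine ⟨e, ⟨by linarith [he.1, hd1'.1, hc1.1], by linarith [he.2, hd1'.2, hc1.2]⟩, ?_⟩
  have e1 : a + 1 - a = 1 := by ring
  have e2 : c + 1 - c = 1 := by ring
  have e3 : d + 1 - d = 1 := by ring
  rw [e1, div_one] at hc2
  rw [e2, div_one] at hd2
  rw [e3, div_one] at he2
  have f1 : a + 1 + 2 = a + 3 := by ring
  have f2 : a + 1 + 1 = a + 2 := by ring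
  have f3 : c + 1 + 1 = c + 2 := by ring
  simp only [f1, f2] at hc2
  simp only [f3] at hd2
  linarith

/-- the third difference of `x^s` -/
noncomputable def T (s x : ℝ) : ℝ := (x + 3) ^ s - 3 * (x + 2) ^ s + 3 * (x + 1) ^ s - x ^ s

theorem T_comb (s A B a : ℝ) (hs : 1 < s) (ha : 0 ≤ a) :
    ∃ e, a < e ∧ e < a + 3 ∧ A * T s a + B * T s (a + 1) =
      s * (s - 1) * (s - 2) * (A * e ^ (s - 3) + B * (e + 1) ^ (s - 3)) := by
  have hpow : ∀ (r y : ℝ), 0 < y → HasDerivAt (fun z : ℝ => z ^ r) (r * y ^ (r - 1)) y := by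
    intro r y hy
    exact Real.hasDerivAt_rpow_const (Or.inl hy.ne')
  have key : ∀ (r c1 : ℝ) (y : ℝ), 0 < y →
      HasDerivAt (fun z : ℝ => c1 * (A * z ^ r + B * (z + 1) ^ r))
        ((c1 * r) * (A * y ^ (r - 1) + B * (y + 1) ^ (r - 1))) y := by
    intro r c1 y hy
    have h1 := ((hpow r y hy).const_mul A).add
      (((hpow r (y + 1) (by linarith)).comp_add_const y 1).const_mul B)
    have h2 := h1.const_mul c1
    refine h2.congr_deriv ?_
    ring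
  obtain ⟨e, he, h⟩ := third_diff (fun z => 1 * (A * z ^ s + B * (z + 1) ^ s))
    (fun z => (1 * s) * (A * z ^ (s - 1) + B * (z + 1) ^ (s - 1)))
    (fun z => (1 * s * (s - 1)) * (A * z ^ (s - 1 - 1) + B * (z + 1) ^ (s - 1 - 1)))
    (fun z => (1 * s * (s - 1) * (s - 1 - 1)) *
      (A * z ^ (s - 1 - 1 - 1) + B * (z + 1) ^ (s - 1 - 1 - 1))) a
    (by
      have h1 : Continuous (fun z : ℝ => z ^ s) := Real.continuous_rpow_const (by linarith)
      have h2 : Continuous (fun z : ℝ => 1 * (A * z ^ s + B * (z + 1) ^ s)) := by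
        have h3 : Continuous (fun z : ℝ => (z + 1) ^ s) := h1.comp (by fun_prop)
        fun_prop
      exact h2.continuousOn)
    (fun y hy => key s 1 y (by linarith [hy.1]))
    (fun y hy => key (s - 1) (1 * s) y (by linarith [hy.1]))
    (fun y hy => key (s - 1 - 1) (1 * s * (s - 1)) y (by linarith [hy.1]))
  refine ⟨e, he.1, he.2, ?_⟩
  have g1 : s - 1 - 1 - 1 = s - 3 := by ring
  have g2 : s - 1 - 1 = s - 2 := by ring
  rw [g1, g2] at h
  have f1 : a + 1 + 3 = a + 3 + 1 := by ring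
  have f2 : a + 1 + 2 = a + 2 + 1 := by ring
  unfold T
  rw [f1, f2]
  linarith

theorem gam_neg (H : ℝ) (j : ℤ) : gam H (-j) = gam H j := by
  unfold gam
  push_cast
  have h1 : |(-(j : ℝ)) + 1| = |(j : ℝ) - 1| := by
    rw [← abs_neg]; congr 1; ring
  have h2 : |(-(j : ℝ)) - 1| = |(j : ℝ) + 1| := by
    rw [← abs_neg]; congr 1; ring
  rw [h1, h2, abs_neg]
  ring

theorem gam_zero {H : ℝ} (h : 0 < H) : gam H 0 = 1 := by
  unfold gam
  have h2 : (2 * H) ≠ 0 := by positivity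
  simp [Real.zero_rpow h2]

theorem gam_succ (H : ℝ) (n : ℕ) : gam H ((n : ℤ) + 1) =
    (((n : ℝ) + 2) ^ (2 * H) - 2 * ((n : ℝ) + 1) ^ (2 * H) + (n : ℝ) ^ (2 * H)) / 2 := by
  unfold gam
  push_cast
  have hn : (0 : ℝ) ≤ n := Nat.cast_nonneg n
  have e1 : (n : ℝ) + 1 + 1 = n + 2 := by ring
  have e2 : (n : ℝ) + 1 - 1 = n := by ring
  rw [e1, e2, abs_of_nonneg (by linarith), abs_of_nonneg (by linarith), abs_of_nonneg hn]

theorem phi_succ (H : ℝ) (n : ℕ) : phi H (n + 1) = - T (2 * H) n / 2 := by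
  unfold phi T
  have e : (((n + 1 : ℕ) : ℤ) + 1) = (((n + 1 : ℕ) : ℤ) + 1) := rfl
  have e1 : ((n + 1 : ℕ) : ℤ) = (n : ℤ) + 1 := by push_cast; ring
  rw [gam_succ H (n + 1), e1, gam_succ H n]
  push_cast
  have e2 : (n : ℝ) + 1 + 2 = n + 3 := by ring
  have e3 : (n : ℝ) + 1 + 1 = n + 2 := by ring
  rw [e2, e3]
  ring

theorem phi_zero {H : ℝ} (h : 0 < H) : phi H 0 = 2 - 2 ^ (2 * H) / 2 := by
  unfold phi
  have h2 : (2 * H) ≠ 0 := by positivity
  have e : gam H ((0 : ℕ) : ℤ) = 1 := by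
    rw [Nat.cast_zero]; exact gam_zero h
  rw [e, gam_succ H 0]
  simp [Real.zero_rpow h2]
  ring

theorem dlt_succ (H : ℝ) (n : ℕ) : dlt H ((n : ℤ) + 1) = phi H (n + 1) - phi H n := by
  unfold dlt phi
  have e1 : ((n + 1 : ℕ) : ℤ) = (n : ℤ) + 1 := by push_cast; ring
  have e2 : (n : ℤ) + 1 - 1 = n := by ring
  rw [e1, e2]
  ring

theorem dlt_neg (H : ℝ) (j : ℤ) : dlt H (-j) = dlt H j := by
  unfold dlt
  have e1 : -j + 1 = -(j - 1) := by ring
  have e2 : -j - 1 = -(j + 1) := by ring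
  rw [e1, e2, gam_neg, gam_neg, gam_neg]
  ring

theorem T_neg {s : ℝ} (hs : 1 < s) (hs2 : s < 2) (n : ℕ) : T s n < 0 := by
  obtain ⟨e, he, -, h⟩ := T_comb s 1 0 n hs (Nat.cast_nonneg n)
  have h0 : T s n = s * (s - 1) * (s - 2) * e ^ (s - 3) := by linarith
  have he0 : 0 < e := lt_of_le_of_lt (Nat.cast_nonneg n) he
  have h1 : 0 < e ^ (s - 3) := Real.rpow_pos_of_pos he0 _
  rw [h0]
  have h2 : 0 < s * (s - 1) := mul_pos (by linarith) (by linarith)
  have h3 : s * (s - 1) * (s - 2) < 0 := mul_neg_of_pos_of_neg h2 (by linarith)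
  exact mul_neg_of_neg_of_pos h3 h1

theorem phi_pos {H : ℝ} (h : 1 / 2 < H) (h1 : H < 1) (n : ℕ) : 0 < phi H n := by
  rcases n with _ | n
  · rw [phi_zero (by linarith)]
    have h2 : (2 : ℝ) ^ (2 * H) < 2 ^ (2 : ℝ) :=
      Real.rpow_lt_rpow_of_exponent_lt (by norm_num) (by linarith)
    have h3 : (2 : ℝ) ^ (2 : ℝ) = 4 := by
      rw [show (2 : ℝ) = ((2 : ℕ) : ℝ) by norm_num, Real.rpow_natCast]; norm_num
    rw [h3] at h2
    linarith
  · rw [phi_succ]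
    have := T_neg (s := 2 * H) (by linarith) (by linarith) n
    linarith

theorem dlt_one_neg {H : ℝ} (h : 1 / 2 < H) (h1 : H < 1) : dlt H 1 < 0 := by
  have e : dlt H 1 = dlt H (((0 : ℕ) : ℤ) + 1) := by simp
  rw [e, dlt_succ, phi_succ, phi_zero (by linarith)]
  unfold T
  have h2 : (2 * H) ≠ 0 := by linarith
  push_cast
  rw [Real.zero_rpow h2]
  simp only [zero_add, Real.one_rpow]
  -- `3^s - 4 * 2^s + 7 > 0`
  set s : ℝ := 2 * H with hs
  have hs2 : s < 2 := by linarith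
  have hs1 : 1 < s := by linarith
  set r : ℝ := (2 : ℝ) ^ (s - 2) with hr
  have hr0 : 0 < r := Real.rpow_pos_of_pos (by norm_num) _
  have hr1 : r < 1 := Real.rpow_lt_one_of_one_lt_of_neg (by norm_num) (by linarith)
  have p2 : (2 : ℝ) ^ s = 4 * r := by
    rw [hr, show (4 : ℝ) = 2 ^ (2 : ℝ) by
      rw [show (2 : ℝ) ^ (2 : ℝ) = 2 ^ ((2 : ℕ) : ℝ) by norm_num, Real.rpow_natCast]; norm_num,
      ← Real.rpow_add (by norm_num)]
    congr 1
    ring
  have p3 : (3 : ℝ) ^ s = 9 * (3 : ℝ) ^ (s - 2) := by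
    rw [show (9 : ℝ) = 3 ^ (2 : ℝ) by
      rw [show (3 : ℝ) ^ (2 : ℝ) = 3 ^ ((2 : ℕ) : ℝ) by norm_num, Real.rpow_natCast]; norm_num,
      ← Real.rpow_add (by norm_num)]
    congr 1
    ring
  have h3 : (3 : ℝ) ≤ 2 ^ (8 / 5 : ℝ) := by
    have : (3 : ℝ) = (243 : ℝ) ^ (1 / 5 : ℝ) := by
      rw [show (243 : ℝ) = 3 ^ ((5 : ℕ) : ℝ) by rw [Real.rpow_natCast]; norm_num,
        ← Real.rpow_mul (by norm_num)]
      norm_num
    have h4 : (2 : ℝ) ^ (8 / 5 : ℝ) = (256 : ℝ) ^ (1 / 5 : ℝ) := by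
      rw [show (256 : ℝ) = 2 ^ ((8 : ℕ) : ℝ) by rw [Real.rpow_natCast]; norm_num,
        ← Real.rpow_mul (by norm_num)]
      norm_num
    rw [h4]
    calc (3 : ℝ) = (243 : ℝ) ^ (1 / 5 : ℝ) := this
      _ ≤ (256 : ℝ) ^ (1 / 5 : ℝ) := Real.rpow_le_rpow (by norm_num) (by norm_num) (by norm_num)
  have h5 : r ^ (8 / 5 : ℝ) ≤ (3 : ℝ) ^ (s - 2) := by
    have h6 : ((2 : ℝ) ^ (8 / 5 : ℝ)) ^ (s - 2) ≤ (3 : ℝ) ^ (s - 2) :=
      Real.rpow_le_rpow_of_nonpos (by norm_num) h3 (by linarith)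
    have h7 : r ^ (8 / 5 : ℝ) = ((2 : ℝ) ^ (8 / 5 : ℝ)) ^ (s - 2) := by
      rw [hr, ← Real.rpow_mul (by norm_num), ← Real.rpow_mul (by norm_num)]
      congr 1
      ring
    rw [h7]
    exact h6
  have h8 : 1 + (8 / 5 : ℝ) * (r - 1) ≤ r ^ (8 / 5 : ℝ) := by
    have := one_add_mul_self_le_rpow_one_add (s := r - 1) (by linarith) (p := 8 / 5) (by norm_num)
    have e5 : 1 + (r - 1) = r := by ring
    rwa [e5] at this
  rw [p2, p3]
  nlinarith

theorem T_mono {s : ℝ} (hs : 1 < s) (hs2 : s < 2) (n : ℕ) : T s n ≤ T s (n + 1) := by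
  obtain ⟨e, he, -, h⟩ := T_comb s (-1) 1 n hs (Nat.cast_nonneg n)
  have he0 : 0 < e := lt_of_le_of_lt (Nat.cast_nonneg n) he
  have h1 : (e + 1) ^ (s - 3) ≤ e ^ (s - 3) :=
    Real.rpow_le_rpow_of_nonpos he0 (by linarith) (by linarith)
  have h2 : 0 < s * (s - 1) := mul_pos (by linarith) (by linarith)
  have h3 : s * (s - 1) * (s - 2) ≤ 0 := (mul_neg_of_pos_of_neg h2 (by linarith)).le
  have h4 : 0 ≤ s * (s - 1) * (s - 2) * (-1 * e ^ (s - 3) + 1 * (e + 1) ^ (s - 3)) :=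
    mul_nonneg_of_nonpos_of_nonpos h3 (by linarith)
  rw [← h] at h4
  linarith

theorem phi_anti {H : ℝ} (h : 1 / 2 < H) (h1 : H < 1) (n : ℕ) : phi H (n + 1) ≤ phi H n := by
  rcases n with _ | n
  · have h2 := dlt_one_neg h h1
    have e : dlt H 1 = dlt H (((0 : ℕ) : ℤ) + 1) := by simp
    rw [e, dlt_succ] at h2
    linarith
  · rw [phi_succ, phi_succ]
    have h2 := T_mono (s := 2 * H) (by linarith) (by linarith) n
    push_cast
    linarith

theorem dlt_nonpos {H : ℝ} (h : 1 / 2 < H) (h1 : H < 1) {j : ℤ} (hj : j ≠ 0) : dlt H j ≤ 0 := by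
  have h2 : ∀ n : ℕ, dlt H ((n : ℤ) + 1) ≤ 0 := by
    intro n
    rw [dlt_succ]
    linarith [phi_anti h h1 n]
  rcases lt_or_gt_of_ne hj with h3 | h3
  · obtain ⟨n, hn⟩ : ∃ n : ℕ, j = -((n : ℤ) + 1) := ⟨(-j - 1).toNat, by omega⟩
    rw [hn, dlt_neg]
    exact h2 n
  · obtain ⟨n, hn⟩ : ∃ n : ℕ, j = (n : ℤ) + 1 := ⟨(j - 1).toNat, by omega⟩
    rw [hn]
    exact h2 n

theorem row {H : ℝ} (i n : ℕ) :
    ∑ m ∈ range (i + n + 1), dlt H ((i : ℤ) - (m : ℤ)) = phi H i + phi H n := by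
  have h1 : ∀ N : ℕ, ∑ m ∈ range N, dlt H ((i : ℤ) - (m : ℤ)) =
      (gam H i - gam H ((i : ℤ) + 1)) - (gam H ((i : ℤ) - N) - gam H ((i : ℤ) - N + 1)) := by
    intro N
    induction N with
    | zero => simp
    | succ N ih =>
      rw [Finset.sum_range_succ, ih]
      unfold dlt
      push_cast
      have e1 : (i : ℤ) - N - 1 = (i : ℤ) - (N + 1) := by ring
      have e2 : (i : ℤ) - (N + 1) + 1 = (i : ℤ) - N := by ring
      rw [e1, e2]
      ring
  rw [h1]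
  unfold phi
  push_cast
  have e1 : (i : ℤ) - (i + n + 1) = -((n : ℤ) + 1) := by ring
  have e2 : -((n : ℤ) + 1) + 1 = -(n : ℤ) := by ring
  rw [e1, e2, gam_neg, gam_neg]
  ring

theorem key {H : ℝ} (h : 1 / 2 < H) (h1 : H < 1) (n : ℕ) :
    ((n : ℝ) + 1) * (- dlt H ((n : ℤ) + 1)) ≤ 3 * phi H n := by
  rw [dlt_succ]
  have p0 := phi_pos h h1 n
  have p1 := phi_pos h h1 (n + 1)
  have hn0 : (0 : ℝ) ≤ n := Nat.cast_nonneg n
  suffices hsuf : ((n : ℝ) - 2) * phi H n ≤ ((n : ℝ) + 1) * phi H (n + 1) by linarith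
  rcases Nat.lt_or_ge n 3 with hn | hn
  · have hn2 : (n : ℝ) ≤ 2 := by exact_mod_cast (by omega : n ≤ 2)
    have h2 : ((n : ℝ) - 2) * phi H n ≤ 0 := mul_nonpos_of_nonpos_of_nonneg (by linarith) p0.le
    have h3 : 0 ≤ ((n : ℝ) + 1) * phi H (n + 1) := by positivity
    linarith
  · obtain ⟨k, rfl⟩ : ∃ k, n = k + 1 := ⟨n - 1, by omega⟩
    rw [phi_succ, phi_succ]
    have hk : (2 : ℝ) ≤ k := by exact_mod_cast (by omega : 2 ≤ k)
    push_cast
    obtain ⟨e, he, -, h4⟩ := T_comb (2 * H) ((k : ℝ) - 1) (-((k : ℝ) + 2)) k (by linarith)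
      (by linarith)
    have he0 : 0 < e := by linarith
    -- the inequality of the powers
    set s : ℝ := 2 * H with hs
    have hs1 : 1 < s := by linarith
    have hs2 : s < 2 := by linarith
    have h5 : ((k : ℝ) - 1) * e ^ (s - 3) ≤ ((k : ℝ) + 2) * (e + 1) ^ (s - 3) := by
      have e1 : e ^ (s - 3) = e ^ (s - 1) * (e ^ 2)⁻¹ := by
        rw [show s - 3 = (s - 1) + (-2 : ℝ) by ring, Real.rpow_add he0, Real.rpow_neg he0.le]
        congr 2
        exact_mod_cast Real.rpow_natCast e 2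
      have e2 : (e + 1) ^ (s - 3) = (e + 1) ^ (s - 1) * ((e + 1) ^ 2)⁻¹ := by
        have he1 : 0 < e + 1 := by linarith
        rw [show s - 3 = (s - 1) + (-2 : ℝ) by ring, Real.rpow_add he1, Real.rpow_neg he1.le]
        congr 2
        exact_mod_cast Real.rpow_natCast (e + 1) 2
      have e3 : e ^ (s - 1) ≤ (e + 1) ^ (s - 1) :=
        Real.rpow_le_rpow he0.le (by linarith) (by linarith)
      have e4 : ((k : ℝ) - 1) * (e ^ 2)⁻¹ ≤ ((k : ℝ) + 2) * ((e + 1) ^ 2)⁻¹ := by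
        rw [← div_eq_mul_inv, ← div_eq_mul_inv, div_le_div_iff₀ (by positivity) (by positivity)]
        nlinarith
      have e5 : 0 ≤ ((k : ℝ) - 1) * (e ^ 2)⁻¹ := by
        have : 0 ≤ (k : ℝ) - 1 := by linarith
        positivity
      have e6 : 0 ≤ (e + 1) ^ (s - 1) := Real.rpow_nonneg (by linarith) _
      calc ((k : ℝ) - 1) * e ^ (s - 3) = e ^ (s - 1) * (((k : ℝ) - 1) * (e ^ 2)⁻¹) := by
            rw [e1]; ring
        _ ≤ (e + 1) ^ (s - 1) * (((k : ℝ) - 1) * (e ^ 2)⁻¹) :=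
            mul_le_mul_of_nonneg_right e3 e5
        _ ≤ (e + 1) ^ (s - 1) * (((k : ℝ) + 2) * ((e + 1) ^ 2)⁻¹) :=
            mul_le_mul_of_nonneg_left e4 e6
        _ = ((k : ℝ) + 2) * (e + 1) ^ (s - 3) := by rw [e2]; ring
    have h2 : 0 < s * (s - 1) := mul_pos (by linarith) (by linarith)
    have h3 : s * (s - 1) * (s - 2) ≤ 0 := (mul_neg_of_pos_of_neg h2 (by linarith)).le
    have h6 : 0 ≤ s * (s - 1) * (s - 2) *
        (((k : ℝ) - 1) * e ^ (s - 3) + -((k : ℝ) + 2) * (e + 1) ^ (s - 3)) :=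
      mul_nonneg_of_nonpos_of_nonpos h3 (by linarith)
    rw [← h4] at h6
    linarith

theorem gam_nonneg {H : ℝ} (h : 1 / 2 < H) (h1 : H < 1) (j : ℤ) : 0 ≤ gam H j := by
  have h2 : ∀ n : ℕ, 0 ≤ gam H (n : ℤ) := by
    intro n
    rcases n with _ | n
    · rw [Nat.cast_zero, gam_zero (by linarith)]
      norm_num
    · rw [Nat.cast_succ, gam_succ]
      have hc := (convexOn_rpow (p := 2 * H) (by linarith)).2
        (show (n : ℝ) + 2 ∈ Set.Ici (0 : ℝ) from by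
          have := Nat.cast_nonneg (α := ℝ) n
          exact Set.mem_Ici.2 (by linarith))
        (show (n : ℝ) ∈ Set.Ici (0 : ℝ) from Set.mem_Ici.2 (Nat.cast_nonneg n))
        (show (0 : ℝ) ≤ 1 / 2 by norm_num) (show (0 : ℝ) ≤ 1 / 2 by norm_num) (by norm_num)
      simp only [smul_eq_mul] at hc
      have e : 1 / 2 * ((n : ℝ) + 2) + 1 / 2 * n = n + 1 := by ring
      rw [e] at hc
      linarith
  rcases le_or_gt 0 j with h3 | h3
  · obtain ⟨n, rfl⟩ := Int.eq_ofNat_of_zero_le h3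
    exact h2 n
  · obtain ⟨n, hn⟩ : ∃ n : ℕ, j = -(n : ℤ) := ⟨(-j).toNat, by omega⟩
    rw [hn, gam_neg]
    exact h2 n

theorem mt_dlt {H : ℝ} (h : 1 / 2 < H) (h1 : H < 1) : MT (dlt H) (phi H) 3 where
  nonpos := fun _ hj => dlt_nonpos h h1 hj
  pos := phi_pos h h1
  row := row
  key := key h h1

end Pool.Agent.K4H25.FH
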