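import Pool.Agent.K4H23.NZ.Spec

set_option autoImplicit false

open Finset Pointwise

namespace Pool.Agent.K4H23.NZ

/-- D1. Radon's inequality: strict convexity of z^(1+a) at 1 and x/y with the weights 1/(1+y), y/(1+y). -/
theorem d1 {x y a : ℝ} (hx : 0 < x) (hy : 0 < y) (hxy : x ≠ y) (ha : 0 < a) :
    (1 + x) ^ (1 + a) < (1 + y) ^ a * (1 + x ^ (1 + a) / y ^ a) := by
  have h := (strictConvexOn_rpow (p := 1 + a) (by linarith)).2
    (show (1 : ℝ) ∈ Set.Ici (0 : ℝ) by simp)
    (show x / y ∈ Set.Ici (0 : ℝ) by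
      have : 0 ≤ x / y := by positivity
      exact this)
    (by
      intro h
      apply hxy
      field_simp at h
      exact h.symm)
    (show 0 < 1 / (1 + y) by positivity) (show 0 < y / (1 + y) by positivity)
    (by field_simp)
  simp only [smul_eq_mul, Real.one_rpow, mul_one] at h
  have e1 : 1 / (1 + y) + y / (1 + y) * (x / y) = (1 + x) / (1 + y) := by
    field_simp
  rw [e1, Real.div_rpow (by linarith) (by linarith), Real.div_rpow hx.le hy.le] at h
  have e2 : (1 + y) ^ (1 + a) = (1 + y) * (1 + y) ^ a := by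
    rw [Real.rpow_add (by linarith), Real.rpow_one]
  have e3 : y ^ (1 + a) = y * y ^ a := by
    rw [Real.rpow_add hy, Real.rpow_one]
  have hya : 0 < y ^ a := Real.rpow_pos_of_pos hy _
  have hy1a : 0 < (1 + y) ^ a := Real.rpow_pos_of_pos (by linarith) _
  rw [e2, e3, div_lt_iff₀ (by positivity)] at h
  refine h.trans_le (le_of_eq ?_)
  field_simp

end Pool.Agent.K4H23.NZ
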